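import Pool.Agent.V11266.Tri

/-!
# Primitive integer triangles with a prescribed integer ratio of base and height

If a positive integer occurs as the ratio base/height (height/base) of an integer-edged triangle,
then it does so for infinitely many primitive integer-edged triangles.

Method: triangles with base/height ratio `n / m` correspond to rational points of the elliptic curve
`y² = x³ + (n² + 2 m²) x² + m⁴ x`, except for four points that form a cyclic group of order four. For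
`n = 1` or `m = 1` these are all rational points of finite order.
-/

set_option autoImplicit false

namespace Pool.Agent.Results.MP_ebd346_nt.InfinitelyManyTriangles

open Pool.Agent.V11266.Tri

/-- The plane. -/
abbrev Plane : Type := EuclideanSpace ℝ (Fin 2)

/-- There is a non-degenerate triangle `P Q R` in the plane with base `P Q` of length `s`, with the
other edges `P R`, `Q R` of lengths `a` and `b`, and with altitude `h` from `R` to the line `P Q`. -/
def IsTriangle (a b s : ℕ) (h : ℝ) : Prop :=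
  ∃ P Q R : Plane, AffineIndependent ℝ ![P, Q, R] ∧ dist P Q = s ∧ dist P R = a ∧ dist Q R = b ∧
    Metric.infDist R (line[ℝ, P, Q] : Set Plane) = h

/-- The triangle with base `s` and other edges `a`, `b` has base/height ratio `k`. -/
def BaseHeight (k a b s : ℕ) : Prop := ∃ h : ℝ, IsTriangle a b s h ∧ (s : ℝ) = k * h

/-- The triangle with base `s` and other edges `a`, `b` has height/base ratio `k`. -/
def HeightBase (k a b s : ℕ) : Prop := ∃ h : ℝ, IsTriangle a b s h ∧ h = k * (s : ℝ)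

/-- The primitive integer-edged triangles, up to congruence (given by the multisets of the lengths
of their edges), one of whose edges, taken as the base `s`, has the property `F a b s`, where `a`,
`b` are the other edges. -/
def Primitive (F : ℕ → ℕ → ℕ → Prop) : Set (Multiset ℕ) :=
  {T | ∃ a b s : ℕ, T = {a, b, s} ∧ Nat.gcd a (Nat.gcd b s) = 1 ∧ F a b s}

/-! ### geometry -/

/-- coordinates of the third vertex -/
theorem coord {P Q R : Plane} {s : ℝ} (hs : 0 < s) (hPQ : dist P Q = s) :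
    ∃ x : ℝ, dist P R ^ 2 = x ^ 2 + Metric.infDist R (line[ℝ, P, Q] : Set Plane) ^ 2 ∧
      dist Q R ^ 2 = (s - x) ^ 2 + Metric.infDist R (line[ℝ, P, Q] : Set Plane) ^ 2 := by
  set v : Plane := Q - P with hv
  set w : Plane := R - P with hw
  have hvn : ‖v‖ = s := by rw [hv, ← dist_eq_norm, dist_comm]; exact hPQ
  set t₀ : ℝ := inner ℝ v w / s ^ 2 with ht₀
  have hs2 : s ^ 2 ≠ 0 := by positivity
  have hin : inner ℝ v w = t₀ * s ^ 2 := by rw [ht₀]; field_simp
  have hexp : ∀ t : ℝ, ‖w - t • v‖ ^ 2 = ‖w - t₀ • v‖ ^ 2 + (t - t₀) ^ 2 * s ^ 2 := by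
    intro t
    have h1 : ∀ r : ℝ, ‖w - r • v‖ ^ 2 = ‖w‖ ^ 2 - 2 * r * (t₀ * s ^ 2) + r ^ 2 * s ^ 2 := by
      intro r
      rw [norm_sub_sq_real, inner_smul_right, norm_smul, real_inner_comm, hin, mul_pow, hvn,
        Real.norm_eq_abs, sq_abs]
      ring
    rw [h1 t, h1 t₀]
    ring
  have hdist : ∀ t : ℝ, dist R (AffineMap.lineMap P Q t) = ‖w - t • v‖ := by
    intro t
    rw [dist_eq_norm, AffineMap.lineMap_apply, vsub_eq_sub, vadd_eq_add, hw, hv]
    congr 1
    abel
  have hinf : Metric.infDist R (line[ℝ, P, Q] : Set Plane) = ‖w - t₀ • v‖ := by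
    apply le_antisymm
    · rw [← hdist]
      exact Metric.infDist_le_dist_of_mem (AffineMap.lineMap_mem_affineSpan_pair t₀ P Q)
    · rw [Metric.le_infDist ⟨P, left_mem_affineSpan_pair ℝ P Q⟩]
      intro y hy
      obtain ⟨t, rfl⟩ := mem_affineSpan_pair_iff_exists_lineMap_eq.1 hy
      rw [hdist]
      have h2 : ‖w - t₀ • v‖ ^ 2 ≤ ‖w - t • v‖ ^ 2 := by
        rw [hexp t]; nlinarith [mul_nonneg (sq_nonneg (t - t₀)) (sq_nonneg s)]
      exact (pow_le_pow_iff_left₀ (norm_nonneg _) (norm_nonneg _) (by norm_num)).1 h2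
  refine ⟨t₀ * s, ?_, ?_⟩
  · have h0 := hexp 0
    rw [zero_smul, sub_zero] at h0
    rw [hinf, dist_comm, dist_eq_norm, ← hw, h0]
    ring
  · have h0 := hexp 1
    rw [one_smul] at h0
    have h3 : w - v = R - Q := by rw [hw, hv]; abel
    rw [h3] at h0
    rw [hinf, dist_comm, dist_eq_norm, h0]
    ring

/-- construction of a triangle -/
theorem construct {a b s : ℕ} {x h : ℝ} (hs : 0 < s) (hh : 0 < h) (ha : (a : ℝ) ^ 2 = x ^ 2 + h ^ 2)
    (hb : (b : ℝ) ^ 2 = ((s : ℝ) - x) ^ 2 + h ^ 2) : IsTriangle a b s h := by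
  have hsR : (0 : ℝ) < s := by exact_mod_cast hs
  let P : Plane := !₂[0, 0]
  let Q : Plane := !₂[(s : ℝ), 0]
  let R : Plane := !₂[x, h]
  have hPQ : dist P Q = s := by
    rw [EuclideanSpace.dist_eq, Fin.sum_univ_two]
    simp only [P, Q, Real.dist_eq]
    have : |(!₂[(0 : ℝ), 0] : Plane) 0 - (!₂[(s : ℝ), 0] : Plane) 0| ^ 2 +
        |(!₂[(0 : ℝ), 0] : Plane) 1 - (!₂[(s : ℝ), 0] : Plane) 1| ^ 2 = (s : ℝ) ^ 2 := by
      simp
    rw [this, Real.sqrt_sq hsR.le]
  have hPR : dist P R = a := by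
    rw [EuclideanSpace.dist_eq, Fin.sum_univ_two]
    simp only [P, R, Real.dist_eq]
    have : |(!₂[(0 : ℝ), 0] : Plane) 0 - (!₂[x, h] : Plane) 0| ^ 2 +
        |(!₂[(0 : ℝ), 0] : Plane) 1 - (!₂[x, h] : Plane) 1| ^ 2 = (a : ℝ) ^ 2 := by
      rw [sq_abs, sq_abs, ha]
      simp
    rw [this, Real.sqrt_sq (Nat.cast_nonneg a)]
  have hQR : dist Q R = b := by
    rw [EuclideanSpace.dist_eq, Fin.sum_univ_two]
    simp only [Q, R, Real.dist_eq]
    have : |(!₂[(s : ℝ), 0] : Plane) 0 - (!₂[x, h] : Plane) 0| ^ 2 +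
        |(!₂[(s : ℝ), 0] : Plane) 1 - (!₂[x, h] : Plane) 1| ^ 2 = (b : ℝ) ^ 2 := by
      rw [sq_abs, sq_abs, hb]
      simp
    rw [this, Real.sqrt_sq (Nat.cast_nonneg b)]
  refine ⟨P, Q, R, ?_, hPQ, hPR, hQR, ?_⟩
  · rw [affineIndependent_iff_not_collinear_set]
    intro hc
    have hne : P ≠ Q := by
      intro h0
      rw [h0, dist_self] at hPQ
      linarith
    have hmem : R ∈ line[ℝ, P, Q] := hc.mem_affineSpan_of_mem_of_ne (by simp) (by simp) (by simp) hne
    obtain ⟨t, ht⟩ := mem_affineSpan_pair_iff_exists_lineMap_eq.1 hmem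
    have h1 : (AffineMap.lineMap P Q t : Plane) 1 = R 1 := by rw [ht]
    rw [AffineMap.lineMap_apply] at h1
    simp [P, Q, R] at h1
    linarith
  · obtain ⟨x', h1, h2⟩ := coord (R := R) hsR hPQ
    set h' := Metric.infDist R (line[ℝ, P, Q] : Set Plane) with hh'
    have h0 : 0 ≤ h' := Metric.infDist_nonneg
    rw [hPR] at h1
    rw [hQR] at h2
    have hx : x' = x := by
      have : (2 * (s : ℝ)) * (x' - x) = 0 := by linear_combination ha - hb - h1 + h2
      rcases mul_eq_zero.1 this with h3 | h3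
      · linarith
      · linarith
    rw [hx] at h1
    have h4 : h' ^ 2 = h ^ 2 := by linarith
    exact (pow_left_inj₀ h0 hh.le (by norm_num)).1 h4

/-! ### the general ratio `n / m` -/

/-- the base/height ratio of the triangle is `n / m` -/
def Ratio (n m a b s : ℕ) : Prop := ∃ h : ℝ, IsTriangle a b s h ∧ (m : ℝ) * s = n * h

theorem base_pos {a b s : ℕ} {h : ℝ} (hT : IsTriangle a b s h) : 0 < s := by
  obtain ⟨P, Q, R, hI, hPQ, -⟩ := hT
  have hne : P ≠ Q := by
    have := hI.injective.ne (show (0 : Fin 3) ≠ 1 by decide)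
    simpa using this
  have : (0 : ℝ) < s := by rw [← hPQ]; exact dist_pos.2 hne
  exact_mod_cast this

theorem ratio_good {n m a b s : ℕ} (hn : 1 ≤ n) (hm : 1 ≤ m) (hR : Ratio n m a b s) :
    (Good n m).Nonempty := by
  obtain ⟨h, hT, hr⟩ := hR
  have hs := base_pos hT
  have hsR : (0 : ℝ) < s := by exact_mod_cast hs
  have hnR : (0 : ℝ) < n := by exact_mod_cast (by omega : 0 < n)
  have hmR : (0 : ℝ) < m := by exact_mod_cast (by omega : 0 < m)
  have hsQ : (0 : ℚ) < s := by exact_mod_cast hs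
  have hnQ : (0 : ℚ) < n := by exact_mod_cast (by omega : 0 < n)
  have hmQ : (0 : ℚ) < m := by exact_mod_cast (by omega : 0 < m)
  obtain ⟨P, Q, R, hI, hPQ, hPR, hQR, hd⟩ := hT
  obtain ⟨x, h1, h2⟩ := coord (R := R) hsR hPQ
  rw [hd, hPR] at h1
  rw [hd, hQR] at h2
  -- rational values of `x` and `h`
  set xq : ℚ := ((a : ℚ) ^ 2 - (b : ℚ) ^ 2 + (s : ℚ) ^ 2) / (2 * s) with hxq
  set hq : ℚ := m * s / n with hhq
  have hxe : x = (xq : ℝ) := by
    rw [hxq]; push_cast
    rw [eq_div_iff (by positivity)]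
    linear_combination h2 - h1
  have hhe : h = (hq : ℝ) := by
    rw [hhq]; push_cast
    rw [eq_div_iff hnR.ne']
    linear_combination -hr
  have hqpos : 0 < hq := by rw [hhq]; positivity
  have h1q : (a : ℚ) ^ 2 = xq ^ 2 + hq ^ 2 := by
    rw [hxe, hhe] at h1
    exact_mod_cast h1
  have h2q : (b : ℚ) ^ 2 = ((s : ℚ) - xq) ^ 2 + hq ^ 2 := by
    rw [hxe, hhe] at h2
    exact_mod_cast h2
  have ha0 : (0 : ℚ) < a := by
    have : (0 : ℚ) ≤ a := Nat.cast_nonneg a
    rcases this.eq_or_lt with h0 | h0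
    · rw [← h0] at h1q
      nlinarith [sq_nonneg xq, pow_pos hqpos 2]
    · exact h0
  have hb0 : (0 : ℚ) < b := by
    have : (0 : ℚ) ≤ b := Nat.cast_nonneg b
    rcases this.eq_or_lt with h0 | h0
    · rw [← h0] at h2q
      nlinarith [sq_nonneg ((s : ℚ) - xq), pow_pos hqpos 2]
    · exact h0
  have hq0 : hq ≠ 0 := hqpos.ne'
  refine to_point (x₁ := xq / hq) (x₂ := (s - xq) / hq) (α := a / hq) (β := b / hq) hn hm ?_ ?_
    (by positivity) (by positivity) ?_
  · field_simp; linear_combination h1q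
  · field_simp; linear_combination h2q
  · rw [← add_div, add_sub_cancel, hhq]
    field_simp

/-- infinitely many triples -/
theorem triples {n m : ℕ} (hn : 1 ≤ n) (hm : 1 ≤ m) (h1 : n = 1 ∨ m = 1)
    (hne : (Good n m).Nonempty) :
    {t : ℕ × ℕ × ℕ | Nat.gcd t.1 (Nat.gcd t.2.1 t.2.2) = 1 ∧ Ratio n m t.1 t.2.1 t.2.2}.Infinite := by
  intro hfin
  have hinf := good_infinite hn hm h1 hne
  apply hinf
  have hnQ : (0 : ℚ) < n := by exact_mod_cast (by omega : 0 < n)
  have hmQ : (0 : ℚ) < m := by exact_mod_cast (by omega : 0 < m)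
  -- the point determined by the triple and two signs
  let al : ℕ × ℕ × ℕ → ℚ := fun t => (t.1 : ℚ) * (n / m) / t.2.2
  let be : ℕ × ℕ × ℕ → ℚ := fun t => (t.2.1 : ℚ) * (n / m) / t.2.2
  let x1 : ℕ × ℕ × ℕ → ℚ := fun t => (al t ^ 2 - be t ^ 2 + (n / m) ^ 2) / (2 * (n / m))
  let x2 : ℕ × ℕ × ℕ → ℚ := fun t => n / m - x1 t
  let XX : (ℕ × ℕ × ℕ) × ℚ × ℚ → ℚ := fun u =>
    -(m : ℚ) ^ 2 * ((x1 u.1 + u.2.1 * al u.1) * (x2 u.1 + u.2.2 * be u.1))
  let G : (ℕ × ℕ × ℕ) × ℚ × ℚ → ℚ × ℚ := fun u =>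
    (XX u, n * XX u - m * (x1 u.1 + u.2.1 * al u.1) * (XX u + (m : ℚ) ^ 2))
  have hsgn : ({1, -1} : Set ℚ).Finite := by simp
  refine ((hfin.prod (hsgn.prod hsgn)).image G).subset ?_
  rintro ⟨X, Y⟩ hXY
  obtain ⟨x₁, x₂, α, β, e1, e2, hα, hβ, e3, ε₁, ε₂, hε₁, hε₂, hX, hY⟩ := of_point hn hm hXY
  have hc : (0 : ℚ) < n / m := by positivity
  obtain ⟨a, b, s, l, hl, hg, ha, hb, hs⟩ := clear hα hβ hc
  have hs0 : (0 : ℚ) < s := by rw [hs]; positivity
  have hsN : 0 < s := by exact_mod_cast hs0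
  refine ⟨((a, b, s), ε₁, ε₂), ⟨⟨hg, ?_⟩, ?_, ?_⟩, ?_⟩
  · -- the triangle
    refine ⟨(l : ℝ), construct (x := ((l * x₁ : ℚ) : ℝ)) hsN (by exact_mod_cast hl) ?_ ?_, ?_⟩
    · have : (a : ℚ) ^ 2 = (l * x₁) ^ 2 + l ^ 2 := by rw [ha]; linear_combination l ^ 2 * e1
      exact_mod_cast this
    · have : (b : ℚ) ^ 2 = ((s : ℚ) - l * x₁) ^ 2 + l ^ 2 := by
        rw [hb, hs, ← e3]; linear_combination l ^ 2 * e2
      exact_mod_cast this
    · have : (m : ℚ) * s = n * l := by rw [hs]; field_simp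
      exact_mod_cast this
  · rcases hε₁ with rfl | rfl <;> simp
  · rcases hε₂ with rfl | rfl <;> simp
  · have hal : al (a, b, s) = α := by
      simp only [al]
      rw [ha, hs]
      field_simp
    have hbe : be (a, b, s) = β := by
      simp only [be]
      rw [hb, hs]
      field_simp
    have hx1 : x1 (a, b, s) = x₁ := by
      simp only [x1]
      rw [hal, hbe, div_eq_iff (by positivity), ← e3]
      linear_combination e1 - e2
    have hx2 : x2 (a, b, s) = x₂ := by
      simp only [x2]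
      rw [hx1, ← e3]; ring
    have hXX : XX ((a, b, s), ε₁, ε₂) = X := by
      simp only [XX]
      rw [hx1, hx2, hal, hbe, hX]
    simp only [G]
    rw [hXX, hx1, hal, ← hY]

/-- passing to multisets -/
theorem primitive_infinite {F : ℕ → ℕ → ℕ → Prop}
    (h : {t : ℕ × ℕ × ℕ | Nat.gcd t.1 (Nat.gcd t.2.1 t.2.2) = 1 ∧ F t.1 t.2.1 t.2.2}.Infinite) :
    (Primitive F).Infinite := by
  intro hfin
  apply h
  let f : ℕ × ℕ × ℕ → Multiset ℕ := fun t => {t.1, t.2.1, t.2.2}
  have hfib : ∀ T ∈ Primitive F, (f ⁻¹' {T}).Finite := by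
    intro T _
    refine ((T.toFinset.finite_toSet.prod
      (T.toFinset.finite_toSet.prod T.toFinset.finite_toSet))).subset ?_
    rintro ⟨a, b, s⟩ hT
    have hT' : ({a, b, s} : Multiset ℕ) = T := hT
    subst hT'
    simp
  refine (hfin.preimage' hfib).subset ?_
  rintro ⟨a, b, s⟩ ⟨h1, h2⟩
  exact ⟨a, b, s, rfl, h1, h2⟩

/-- **Theorem.** Let `k` be a positive integer. If `k` occurs as the base/height ratio of an
integer-edged triangle, then it does so for infinitely many primitive ones, and if `k` occurs as the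
height/base ratio of an integer-edged triangle, then it does so for infinitely many primitive
ones. -/
theorem result : ∀ k : ℕ, 0 < k →
    ((∃ a b s : ℕ, BaseHeight k a b s) → (Primitive (BaseHeight k)).Infinite) ∧
    ((∃ a b s : ℕ, HeightBase k a b s) → (Primitive (HeightBase k)).Infinite) := by
  intro k hk
  have e1 : BaseHeight k = Ratio k 1 := by
    funext a b s
    apply propext
    unfold BaseHeight Ratio
    simp
  have e2 : HeightBase k = Ratio 1 k := by
    funext a b s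
    apply propext
    unfold HeightBase Ratio
    constructor
    · rintro ⟨h, h1, h2⟩; exact ⟨h, h1, by rw [h2]; push_cast; ring⟩
    · rintro ⟨h, h1, h2⟩; exact ⟨h, h1, by push_cast at h2; linarith⟩
  rw [e1, e2]
  constructor
  · rintro ⟨a, b, s, h⟩
    exact primitive_infinite (triples hk le_rfl (Or.inr rfl) (ratio_good hk le_rfl h))
  · rintro ⟨a, b, s, h⟩
    exact primitive_infinite (triples le_rfl hk (Or.inl rfl) (ratio_good le_rfl hk h))

end Pool.Agent.Results.MP_ebd346_nt.InfinitelyManyTriangles
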